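import Pool.Agent.Q111.HP.QU2

/-!
# The question of Nori and Rao for the rings `W[[X₀, …, X_{r+1}]]/(X₀^{a+1} X₁ - u)`, `W` a complete
regular local ring of dimension two, `u` a regular parameter of `W`
-/

set_option autoImplicit false

open IsLocalRing

noncomputable section

namespace Pool.Agent.Results.MP_a37f0b_ag.NoriRaoHyperbolicPowers

open Pool.Agent.H40.BP

/-- the power series `X₀^{a+1} X₁ - u` -/
def rel (W : Type) [CommRing W] (u : W) (a r : ℕ) : MvPowerSeries (Fin (r + 2)) W :=
  MvPowerSeries.X 0 ^ (a + 1) * MvPowerSeries.X 1 - MvPowerSeries.C u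

/-- the ring `D = W[[X₀, …, X_{r+1}]]/(X₀^{a+1} X₁ - u)` -/
def D (W : Type) [CommRing W] (u : W) (a r : ℕ) : Type :=
  MvPowerSeries (Fin (r + 2)) W ⧸ Ideal.span {rel W u a r}

instance (W : Type) [CommRing W] (u : W) (a r : ℕ) : CommRing (D W u a r) :=
  Ideal.Quotient.commRing _

/-- the projection to `D` -/
def D.mk (W : Type) [CommRing W] (u : W) (a r : ℕ) :
    MvPowerSeries (Fin (r + 2)) W →+* D W u a r :=
  Ideal.Quotient.mk (Ideal.span {rel W u a r})

/-- every finitely generated projective module over every polynomial ring `A[X_i | i ∈ ι]`,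
`ι` finite, is free -/
def AllFree (A : Type) [CommRing A] : Prop :=
  ∀ (ι : Type) [Finite ι] (P : Type) [AddCommGroup P] [Module (MvPolynomial ι A) P]
    [Module.Finite (MvPolynomial ι A) P] [Module.Projective (MvPolynomial ι A) P],
  Module.Free (MvPolynomial ι A) P

/-- **The question of Nori and Rao for `D = W[[X₀, …, X_{r+1}]]/(X₀^{a+1} X₁ - u)`**: all
projective modules over (the polynomial rings over) `D[1/(X₀ v c)]` are free, `v` a regular
parameter of `W`, `c` a nonzero element of `W`. -/
theorem result :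
    ∀ (W : Type) [CommRing W] [IsRegularLocalRing W] [IsAdicComplete (maximalIdeal W) W],
      ringKrullDim W = 2 → ∀ u : W, u ∈ maximalIdeal W → u ∉ maximalIdeal W ^ 2 → ∀ a r : ℕ,
        -- `D` is a regular local ring of dimension `r + 3`
        ringKrullDim (D W u a r) = ((r + 3 : ℕ) : WithBot ℕ∞) ∧
        -- `v, X₀, …, X_{r+1}` is a regular system of parameters of `D` if `m_W = (u, v)`
        (∃ _ : IsRegularLocalRing (D W u a r),
          ∀ v : W, maximalIdeal W = Ideal.span {u, v} →
            maximalIdeal (D W u a r) = Ideal.span ({D.mk W u a r (MvPowerSeries.C v)} ∪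
              Set.range (fun i : Fin (r + 2) => D.mk W u a r (MvPowerSeries.X i)))) ∧
        -- the rings `D[1/(X₀ v c)]`
        (∀ v c : W, v ∈ maximalIdeal W → v ∉ maximalIdeal W ^ 2 → c ≠ 0 →
          AllFree (Localization.Away
            (D.mk W u a r (MvPowerSeries.X 0 * MvPowerSeries.C (v * c))))) := by
  intro W _ _ _ hW u hu hu2 a r
  have hreg := Pool.Agent.Q111.HP.ph_reg W hW u hu hu2 r a
  refine ⟨hreg.2, ?_, fun v c hv hv2 hc => (allFree_iff_AF _).2
    (Pool.Agent.Q111.HP.ph_H2 W hW u hu hu2 r a v c hv hv2 hc)⟩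
  have h1 := hreg.1
  exact ⟨h1, fun v huv => Pool.Agent.Q111.HP.ph_max W u hu r a v huv⟩

end Pool.Agent.Results.MP_a37f0b_ag.NoriRaoHyperbolicPowers
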